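import Mathlib
import Pool.Agent.H14.Density

set_option autoImplicit false

namespace Pool.Agent.Results.MP_1da4e9_nt.Homog

open Pool.Agent.H14.Density in
theorem result (H : Set ℤ) (hH : H = Set.univ ∨ H = Set.Ici 0 ∨ H = Set.Ici 1) :
    ∃ m : Set ℤ → ℝ, IsUpperDensity H m ∧
      ∃ X ⊆ H, ∃ k : ℤ, 0 < k ∧ lower H m (aff k 0 X) ≠ 1 / k * lower H m X := by
  have h := not_homog H
    (by rcases hH with rfl | rfl | rfl <;>
      simp only [Set.mem_univ, Set.mem_Ici, implies_true] <;> omega)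
    (by rcases hH with rfl | rfl | rfl <;>
      simp only [Set.mem_univ, Set.mem_Ici, implies_true] <;> omega)
  exact ⟨μ, h.1, H \ S, Set.sdiff_subset, 2, two_pos, h.2⟩

end Pool.Agent.Results.MP_1da4e9_nt.Homog
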