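import Mathlib
import Pool.Agent.H14.Density

set_option autoImplicit false

namespace Pool.Agent.Results.MP_1da4e9_nt.Transl

open Pool.Agent.H14.Density in
theorem result :
    (∀ H : Set ℤ, H = Set.Ici 0 ∨ H = Set.Ici 1 → ∃ m : Set ℤ → ℝ, IsUpperQuasiDensity H m ∧
      ∃ X ⊆ H, ∃ h : ℤ, 0 ≤ h ∧ lower H m (aff 1 h X) ≠ lower H m X) ∧
    ∀ m : Set ℤ → ℝ, IsUpperQuasiDensity Set.univ m →
      ∀ (X : Set ℤ) (h : ℤ), 0 ≤ h → lower Set.univ m (aff 1 h X) = lower Set.univ m X := by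
  refine ⟨?_, transl_int⟩
  rintro H (rfl | rfl)
  · obtain ⟨X, h1, h2⟩ := not_transl 0
    exact ⟨ν, ν_quasi _ fun x hx => hx.le, X, h1, 1, zero_le_one, h2⟩
  · obtain ⟨X, h1, h2⟩ := not_transl 1
    exact ⟨ν, ν_quasi _ fun x hx => hx, X, h1, 1, zero_le_one, h2⟩

end Pool.Agent.Results.MP_1da4e9_nt.Transl
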